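import Mathlib

/-!
# MP_2d361f_co, Q1: the unique subset exchange relation `≃₃` is not symmetric

We exhibit a matroid of rank 4 on 8 elements (57 bases) and two base sequences `s`, `t` of
length 2 such that `t` arises from `s` by ONE unique subset exchange, while `s` cannot be
reached from `t` by any chain of unique subset exchanges (from `t` one can only reach `t`
itself and the sequence with the two entries of `t` swapped).
-/

namespace Pool.Agent.Results.MP_2d361f_co.NotSymmetric

open Set

/-- The set `E(X; A, B)` of the problem. -/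
def exch {α : Type*} (M : Matroid α) (X A B : Set α) : Set (Set α) :=
  {Y | Y ⊆ B ∧ M.IsBase ((A \ X) ∪ Y) ∧ M.IsBase ((B \ Y) ∪ X)}

/-- `t` arises from the sequence `s` by one unique subset exchange. -/
def UniqueExchange {α : Type*} (M : Matroid α) {m : ℕ} (s t : Fin m → Set α) : Prop :=
  ∃ i j : Fin m, i < j ∧ ∃ X Y : Set α, X ⊆ s i ∧ exch M X (s i) (s j) = {Y} ∧
    t = Function.update (Function.update s i ((s i \ X) ∪ Y)) j ((s j \ Y) ∪ X)

/-- The relation `s ≃₃ t`: `t` can be reached from `s` by a finite chain of unique subset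
exchanges. -/
def Rel3 {α : Type*} (M : Matroid α) {m : ℕ} : (Fin m → Set α) → (Fin m → Set α) → Prop :=
  Relation.ReflTransGen (UniqueExchange M)

/-- The 57 bases, encoded as bit positions of one natural number: the subset `S` of
`{0,…,7}` is a base iff bit number `∑_{i ∈ S} 2^i` is set. -/
def NB : ℕ := 1774288019144798429102907837210135884152979115263770418958229889670479872

/-- decode a bit mask -/
def dec (k : ℕ) : Set (Fin 8) := {i | k.testBit i.val = true}

lemma exists_dec (S : Set (Fin 8)) : ∃ k < 256, dec k = S := by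
  classical
  refine ⟨Nat.ofBits (fun i : Fin 8 => decide (i ∈ S)), Nat.ofBits_lt_two_pow _, ?_⟩
  ext i
  simp [dec, Nat.testBit_ofBits_lt]

lemma testBit_high {k : ℕ} (hk : k < 256) {i : ℕ} (hi : 8 ≤ i) : k.testBit i = false := by
  apply Nat.testBit_lt_two_pow
  calc k < 2 ^ 8 := hk
    _ ≤ 2 ^ i := Nat.pow_le_pow_right (by norm_num) hi

lemma dec_inj {k l : ℕ} (hk : k < 256) (hl : l < 256) (h : dec k = dec l) : k = l := by
  apply Nat.eq_of_testBit_eq
  intro i
  by_cases hi : i < 8
  · have := Set.ext_iff.1 h ⟨i, hi⟩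
    simp only [dec, Set.mem_ofPred_eq] at this
    exact Bool.eq_iff_iff.2 this
  · rw [testBit_high hk (by omega), testBit_high hl (by omega)]

/-- mask of `(A \ X) ∪ Y` -/
def sw (a x y : ℕ) : ℕ := (a &&& (255 ^^^ x)) ||| y

lemma testBit_255 : ∀ i < 8, (255 : ℕ).testBit i = true := by decide

lemma dec_sw (a x y : ℕ) : (dec a \ dec x) ∪ dec y = dec (sw a x y) := by
  ext i
  have h := testBit_255 i.val i.isLt
  simp only [dec, sw, Set.mem_union, Set.mem_sdiff, Set.mem_ofPred_eq, Nat.testBit_or,
    Nat.testBit_and, Nat.testBit_xor, h]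
  cases a.testBit i.val <;> cases x.testBit i.val <;> cases y.testBit i.val <;> simp

lemma sw_lt {a x y : ℕ} (ha : a < 256) (hy : y < 256) : sw a x y < 256 := by
  unfold sw
  apply Nat.or_lt_two_pow (n := 8)
  · exact lt_of_le_of_lt Nat.and_le_left ha
  · exact hy

lemma dec_subset {x b : ℕ} (hx : x < 256) : dec x ⊆ dec b ↔ x &&& b = x := by
  constructor
  · intro h
    apply Nat.eq_of_testBit_eq
    intro i
    rw [Nat.testBit_and]
    by_cases hi : i < 8
    · have := @h ⟨i, hi⟩
      simp only [dec, Set.mem_ofPred_eq] at this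
      cases hx' : x.testBit i
      · simp
      · simp [this hx']
    · rw [testBit_high hx (by omega)]; simp
  · intro h i hi
    simp only [dec, Set.mem_ofPred_eq] at hi ⊢
    rw [← h, Nat.testBit_and] at hi
    simp at hi
    exact hi.2

/-- The base predicate. -/
def IsB (S : Set (Fin 8)) : Prop := ∃ k < 256, NB.testBit k = true ∧ dec k = S

lemma isB_dec {k : ℕ} (hk : k < 256) : IsB (dec k) ↔ NB.testBit k = true := by
  constructor
  · rintro ⟨l, hl, hb, h⟩
    rw [← dec_inj hl hk h]; exact hb
  · intro h; exact ⟨k, hk, h, rfl⟩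

/-- The finite check of the exchange axiom. -/
def exCheck : Bool :=
  (List.range 256).all fun a => !(NB.testBit a) || (List.range 256).all fun b =>
    !(NB.testBit b) || (List.range 8).all fun x => !(a.testBit x) || b.testBit x ||
      (List.range 8).any fun y => b.testBit y && !(a.testBit y) &&
        NB.testBit (sw a (2 ^ x) (2 ^ y))

lemma exCheck_true : exCheck = true := by decide +kernel

lemma dec_pow (y : Fin 8) : dec (2 ^ y.val) = {y} := by
  ext i
  simp only [dec, Set.mem_ofPred_eq, Set.mem_singleton_iff]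
  rw [Nat.testBit_two_pow]
  simp [Fin.ext_iff, eq_comm]

lemma exchange : Matroid.ExchangeProperty IsB := by
  rintro X Y ⟨a, ha, hba, rfl⟩ ⟨b, hb, hbb, rfl⟩ x hx
  have h := exCheck_true
  rw [exCheck, List.all_eq_true] at h
  have h1 := h a (List.mem_range.2 ha)
  rw [hba] at h1
  simp only [Bool.not_true, Bool.false_or] at h1
  rw [List.all_eq_true] at h1
  have h2 := h1 b (List.mem_range.2 hb)
  rw [hbb] at h2
  simp only [Bool.not_true, Bool.false_or] at h2
  rw [List.all_eq_true] at h2
  have h3 := h2 x.val (List.mem_range.2 x.isLt)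
  simp only [dec, Set.mem_sdiff, Set.mem_ofPred_eq, Bool.not_eq_true] at hx
  rw [hx.1, hx.2] at h3
  simp only [Bool.not_true, Bool.false_or] at h3
  rw [List.any_eq_true] at h3
  obtain ⟨y, hy, h4⟩ := h3
  have hy8 : y < 8 := List.mem_range.1 hy
  simp only [Bool.and_eq_true, Bool.not_eq_true'] at h4
  refine ⟨⟨y, hy8⟩, ⟨h4.1.1, ?_⟩, ?_⟩
  · simp only [dec, Set.mem_ofPred_eq, Bool.not_eq_true]; exact h4.1.2
  · have e : insert (⟨y, hy8⟩ : Fin 8) (dec a \ {x}) = dec (sw a (2 ^ x.val) (2 ^ y)) := by
      rw [← dec_sw, dec_pow x, dec_pow ⟨y, hy8⟩, Set.union_singleton]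
    rw [e]
    have hlt : 2 ^ y < 256 := by
      calc 2 ^ y < 2 ^ 8 := Nat.pow_lt_pow_right (by norm_num) hy8
        _ = 256 := by norm_num
    rw [isB_dec (sw_lt ha hlt)]
    exact h4.2

/-- The matroid: rank 4, ground set all of `Fin 8`, 57 bases. -/
def M : Matroid (Fin 8) :=
  Matroid.ofIsBaseOfFinite (E := Set.univ) Set.finite_univ IsB
    ⟨dec 15, 15, by norm_num, by decide +kernel, rfl⟩ exchange (fun _ _ => Set.subset_univ _)

lemma M_isBase (S : Set (Fin 8)) : M.IsBase S ↔ IsB S := by
  unfold M
  rw [Matroid.ofIsBaseOfFinite_isBase]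

lemma M_dec {k : ℕ} (hk : k < 256) : M.IsBase (dec k) ↔ NB.testBit k = true := by
  rw [M_isBase, isB_dec hk]

lemma mem_exch {x y a b : ℕ} (hx : x < 256) (hy : y < 256) (ha : a < 256) (hb : b < 256) :
    dec y ∈ exch M (dec x) (dec a) (dec b) ↔
      (y &&& b = y ∧ NB.testBit (sw a x y) = true ∧ NB.testBit (sw b y x) = true) := by
  unfold exch
  rw [Set.mem_ofPred_eq, dec_sw, dec_sw, M_dec (sw_lt ha hy), M_dec (sw_lt hb hx),
    dec_subset hy]

/-- the sequence `s` -/
def s : Fin 2 → Set (Fin 8) := ![dec 202, dec 53]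

/-- the sequence `t` -/
def t : Fin 2 → Set (Fin 8) := ![dec 86, dec 169]

/-- the sequence `t` with its entries swapped -/
def t' : Fin 2 → Set (Fin 8) := ![dec 169, dec 86]

def firstCheck : Bool :=
  (List.range 256).all fun y => (decide (y &&& 53 = y) && NB.testBit (sw 202 136 y) &&
    NB.testBit (sw 53 y 136)) == decide (y = 20)

lemma firstCheck_true : firstCheck = true := by decide +kernel

lemma step_s_t : UniqueExchange M s t := by
  refine ⟨0, 1, by decide, dec 136, dec 20, ?_, ?_, ?_⟩
  · show dec 136 ⊆ dec 202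
    rw [dec_subset (by norm_num)]; decide
  · show exch M (dec 136) (dec 202) (dec 53) = {dec 20}
    ext Y
    obtain ⟨y, hy, rfl⟩ := exists_dec Y
    rw [mem_exch (by norm_num) hy (by norm_num) (by norm_num), Set.mem_singleton_iff]
    have h := firstCheck_true
    rw [firstCheck, List.all_eq_true] at h
    have h1 := h y (List.mem_range.2 hy)
    rw [beq_iff_eq, Bool.eq_iff_iff] at h1
    simp only [Bool.and_eq_true, decide_eq_true_eq] at h1
    rw [and_assoc] at h1
    rw [h1]
    constructor
    · rintro rfl; rfl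
    · intro h2; exact dec_inj hy (by norm_num) h2
  · funext i
    fin_cases i
    · show dec 86 = _
      simp only [s, Function.update]
      simp
      rw [dec_sw]
      congr 1
    · show dec 169 = _
      simp only [s, Function.update]
      simp
      rw [dec_sw]
      congr 1

/-- for every nonempty proper part `x` of the first entry there are two different choices -/
def stuckCheck (a b : ℕ) : Bool :=
  (List.range 256).all fun x => !(decide (x &&& a = x)) || decide (x = 0) || decide (x = a) ||
    (List.range 256).any fun y => (List.range 256).any fun z => decide (y < z) &&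
      (decide (y &&& b = y) && NB.testBit (sw a x y) && NB.testBit (sw b y x)) &&
      (decide (z &&& b = z) && NB.testBit (sw a x z) && NB.testBit (sw b z x))

lemma stuckCheck_true : stuckCheck 86 169 = true ∧ stuckCheck 169 86 = true := by
  constructor <;> decide +kernel

lemma stuck {a b : ℕ} (ha : a < 256) (hb : b < 256) (hab : stuckCheck a b = true)
    (hbase : NB.testBit a = true ∧ NB.testBit b = true)
    (hself : sw a 0 0 = a ∧ sw b 0 0 = b ∧ sw a a b = b ∧ sw b b a = a)
    {X Y : Set (Fin 8)} (hX : X ⊆ dec a) (hY : exch M X (dec a) (dec b) = {Y}) :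
    ((dec a \ X) ∪ Y = dec a ∧ (dec b \ Y) ∪ X = dec b) ∨
      ((dec a \ X) ∪ Y = dec b ∧ (dec b \ Y) ∪ X = dec a) := by
  obtain ⟨x, hx, rfl⟩ := exists_dec X
  rw [dec_subset hx] at hX
  rw [stuckCheck, List.all_eq_true] at hab
  have h1 := hab x (List.mem_range.2 hx)
  simp only [hX, decide_true, Bool.not_true, Bool.false_or, Bool.or_eq_true,
    decide_eq_true_eq] at h1
  rcases h1 with (h1 | h1) | h1
  · subst h1
    have h0 : dec 0 ∈ exch M (dec 0) (dec a) (dec b) := by
      rw [mem_exch hx hx ha hb, hself.1, hself.2.1]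
      exact ⟨by simp, hbase.1, hbase.2⟩
    rw [hY, Set.mem_singleton_iff] at h0
    left
    rw [← h0, dec_sw, dec_sw, hself.1, hself.2.1]
    exact ⟨rfl, rfl⟩
  · subst h1
    have h0 : dec b ∈ exch M (dec x) (dec x) (dec b) := by
      rw [mem_exch hx hb ha hb, hself.2.2.1, hself.2.2.2]
      exact ⟨by simp, hbase.2, hbase.1⟩
    rw [hY, Set.mem_singleton_iff] at h0
    right
    rw [← h0, dec_sw, dec_sw, hself.2.2.1, hself.2.2.2]
    exact ⟨rfl, rfl⟩
  · exfalso
    rw [List.any_eq_true] at h1
    obtain ⟨y, hy, h2⟩ := h1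
    rw [List.any_eq_true] at h2
    obtain ⟨z, hz, h3⟩ := h2
    have hy' := List.mem_range.1 hy
    have hz' := List.mem_range.1 hz
    simp only [Bool.and_eq_true, decide_eq_true_eq] at h3
    have e1 : dec y ∈ exch M (dec x) (dec a) (dec b) := by
      rw [mem_exch hx hy' ha hb]
      exact ⟨h3.1.2.1.1, h3.1.2.1.2, h3.1.2.2⟩
    have e2 : dec z ∈ exch M (dec x) (dec a) (dec b) := by
      rw [mem_exch hx hz' ha hb]
      exact ⟨h3.2.1.1, h3.2.1.2, h3.2.2⟩
    rw [hY, Set.mem_singleton_iff] at e1 e2
    have := dec_inj hy' hz' (e1.trans e2.symm)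
    omega

lemma step_seq {A B : Set (Fin 8)} {u : Fin 2 → Set (Fin 8)}
    (h : UniqueExchange M ![A, B] u) :
    ∃ X Y : Set (Fin 8), X ⊆ A ∧ exch M X A B = {Y} ∧ u = ![(A \ X) ∪ Y, (B \ Y) ∪ X] := by
  obtain ⟨i, j, hij, X, Y, hX, hY, hu⟩ := h
  have hij' : i.val < j.val := hij
  have hi : i = 0 := Fin.ext (by show i.val = 0; omega)
  have hj : j = 1 := Fin.ext (by show j.val = 1; omega)
  subst hi; subst hj
  refine ⟨X, Y, hX, hY, ?_⟩
  rw [hu]
  funext k
  fin_cases k <;> simp [Function.update]

lemma closed {u v : Fin 2 → Set (Fin 8)} (hu : u = t ∨ u = t') (h : UniqueExchange M u v) :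
    v = t ∨ v = t' := by
  rcases hu with rfl | rfl
  · obtain ⟨X, Y, hX, hY, hv⟩ := step_seq h
    rcases stuck (by norm_num) (by norm_num) stuckCheck_true.1 (by decide +kernel)
      (by decide +kernel) hX hY with h1 | h1
    · left; rw [hv, h1.1, h1.2]; rfl
    · right; rw [hv, h1.1, h1.2]; rfl
  · obtain ⟨X, Y, hX, hY, hv⟩ := step_seq h
    rcases stuck (by norm_num) (by norm_num) stuckCheck_true.2 (by decide +kernel)
      (by decide +kernel) hX hY with h1 | h1
    · right; rw [hv, h1.1, h1.2]; rfl
    · left; rw [hv, h1.1, h1.2]; rfl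

lemma reach {v : Fin 2 → Set (Fin 8)} (h : Rel3 M t v) : v = t ∨ v = t' := by
  induction h with
  | refl => exact Or.inl rfl
  | tail _ h2 ih => exact closed ih h2

lemma s_ne : s ≠ t ∧ s ≠ t' := by
  constructor
  · intro h
    have := dec_inj (by norm_num) (by norm_num) (congrFun h 0)
    omega
  · intro h
    have := dec_inj (by norm_num) (by norm_num) (congrFun h 0)
    omega

/-- **MP_2d361f_co, Q1 (negative answer).** There are a matroid `M` on 8 elements and base
sequences `s`, `t` of length 2 such that `t` arises from `s` by a single unique subset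
exchange (so `s ≃₃ t`), but `t ≃₃ s` does not hold. Hence `≃₃` is not symmetric. -/
theorem result : ∃ (M : Matroid (Fin 8)) (s t : Fin 2 → Set (Fin 8)),
    M.E = Set.univ ∧ (∀ i, M.IsBase (s i)) ∧ (∀ i, M.IsBase (t i)) ∧
      UniqueExchange M s t ∧ Rel3 M s t ∧ ¬ Rel3 M t s := by
  refine ⟨M, s, t, rfl, ?_, ?_, step_s_t, Relation.ReflTransGen.single step_s_t, ?_⟩
  · intro i
    fin_cases i
    · exact (M_dec (k := 202) (by norm_num)).2 (by decide +kernel)
    · exact (M_dec (k := 53) (by norm_num)).2 (by decide +kernel)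
  · intro i
    fin_cases i
    · exact (M_dec (k := 86) (by norm_num)).2 (by decide +kernel)
    · exact (M_dec (k := 169) (by norm_num)).2 (by decide +kernel)
  · intro h
    rcases reach h with h1 | h1
    · exact s_ne.1 h1
    · exact s_ne.2 h1

end Pool.Agent.Results.MP_2d361f_co.NotSymmetric
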